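import Mathlib
import Pool.Agent.Work.MP_f1a024_nt.SD.Main

/-!
# Superexponential denominators of `zeta(2m)/zeta(m)^2` for almost all `m`

Put `t(m) = zeta(2m)/zeta(m)^2`.  For every `ε > 0` there is `C` such that for all real `B ≥ 1`
and all `x ≥ 2` at most `exp(C B^(2+ε)) log x` integers `m` in `[2, x]` are such that `t(m)` is
within `exp(-C B^(2+ε) m)` of a rational number with denominator at most `B^m`.

Consequently, for `0 < c`, `2 c < θ` and all large `x`, all but at most `exp((log x)^θ)` integers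
`m` in `[2, x]` are such that `t(m)` is not within `exp(-m (log x)^θ)` of a rational number with
denominator at most `(log x)^(c m)`.  For `c < 1/2` one can take `θ < 1`, and the exceptional set
has only `x^(o(1))` elements.
-/

set_option autoImplicit false

namespace Pool.Agent.Results.MP_f1a024_nt.AlmostAll

/-- the ratio `zeta(2m)/zeta(m)^2` -/
noncomputable def t (m : ℕ) : ℂ := riemannZeta (2 * m) / riemannZeta m ^ 2

/-- `t(m)` is within `ρ^m` of a rational number `a/b` with `0 < b ≤ B^m` -/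
def Near (B ρ : ℝ) (m : ℕ) : Prop :=
  ∃ a b : ℤ, 0 < b ∧ (b : ℝ) ≤ B ^ m ∧ ‖t m - (a : ℂ) / b‖ ≤ ρ ^ m

lemma near_iff (B ρ : ℝ) (m : ℕ) : Near B ρ m ↔ MPf1a024.SD.IsNear B ρ m := Iff.rfl

open Classical in
lemma card_le (B ρ : ℝ) (x : ℕ) :
    (((Finset.Icc 2 x).filter (Near B ρ)).card : ℝ) ≤
      (((Finset.Icc 1 x).filter (MPf1a024.SD.IsNear B ρ)).card : ℝ) := by
  have h : (Finset.Icc 2 x).filter (Near B ρ) ⊆
      (Finset.Icc 1 x).filter (MPf1a024.SD.IsNear B ρ) := by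
    intro m hm
    rw [Finset.mem_filter, Finset.mem_Icc] at hm ⊢
    exact ⟨⟨by omega, hm.1.2⟩, (near_iff B ρ m).mp hm.2⟩
  exact_mod_cast Finset.card_le_card h

open Classical in
/-- (1) For every `ε > 0` there is `C` such that for all `B ≥ 1`, `x ≥ 2` at most
`exp(C B^(2+ε)) log x` integers `m` in `[2, x]` are such that `t(m)` is within
`exp(-C B^(2+ε) m)` of a rational number with denominator at most `B^m`.
(2) For `0 < c`, `2 c < θ` and `x ≥ x₀(c, θ)` at most `exp((log x)^θ)` integers `m` in `[2, x]`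
are such that `t(m)` is within `exp(-m (log x)^θ)` of a rational number with denominator at most
`(log x)^(c m)`. -/
theorem result :
    (∀ ε : ℝ, 0 < ε → ∃ C : ℝ, ∀ B : ℝ, 1 ≤ B → ∀ x : ℕ, 2 ≤ x →
      (((Finset.Icc 2 x).filter (Near B (Real.exp (-(C * B ^ (2 + ε)))))).card : ℝ) ≤
        Real.exp (C * B ^ (2 + ε)) * Real.log x) ∧
    (∀ c θ : ℝ, 0 < c → 2 * c < θ → ∃ x₀ : ℕ, ∀ x : ℕ, x₀ ≤ x →
      (((Finset.Icc 2 x).filter (Near (Real.log x ^ c)
        (Real.exp (-(Real.log x ^ θ))))).card : ℝ) ≤ Real.exp (Real.log x ^ θ)) := by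
  refine ⟨fun ε hε => ?_, fun c θ hc hcθ => ?_⟩
  · obtain ⟨C, hC⟩ := MPf1a024.SD.uniform hε
    exact ⟨C, fun B hB x hx => (card_le _ _ _).trans (hC B hB x hx)⟩
  · obtain ⟨x₀, hx₀⟩ := MPf1a024.SD.almost_all hc hcθ
    exact ⟨x₀, fun x hx => (card_le _ _ _).trans (hx₀ x hx)⟩

end Pool.Agent.Results.MP_f1a024_nt.AlmostAll
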