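import Pool.Agent.Work.MP_f1a024_nt.RW.Final
import Pool.Agent.Work.MP_f1a024_nt.RW.Z3
import Pool.Agent.Work.MP_f1a024_nt.RW.Cor

/-!
# The values `ζ(2n)/ζ(n)^2` are approximated by algebraic numbers like generic numbers
-/

namespace Pool.Agent.Work.MP_f1a024_nt.Kept.GenericExponent

/-- `t(n) = ζ(2n)/ζ(n)^2` -/
noncomputable def t (n : ℕ) : ℂ := riemannZeta (2 * n) / riemannZeta n ^ 2

/-- Let `θ > 0` satisfy `q ^ d ≤ θ ^ d * ∏_{p < q prime} p` for all primes `q` (for `d ≥ 1` this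
holds if `θ = 2 ^ ((d + 1) / 2)`). For all `B` and `ε > 0` there is `M` such that for all `n ≥ M`
every nonzero integer polynomial `P` of degree at most `d` with coefficients at most `H`, where
`θ ^ n ≤ H ≤ B ^ n`, satisfies `|P(t(n))| ≥ exp(-εn) * H ^ (-d)`. -/
theorem result :
    (∀ (d : ℕ) (θ B ε : ℝ), 0 < θ →
      (∀ q : ℕ, q.Prime → (q : ℝ) ^ d ≤
        θ ^ d * ∏ p ∈ (Finset.range q).filter Nat.Prime, (p : ℝ)) → 0 < ε →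
      ∃ M : ℕ, ∀ n ≥ M, ∀ (P : Polynomial ℤ) (H : ℝ), P ≠ 0 → P.natDegree ≤ d →
        (∀ i, |(P.coeff i : ℝ)| ≤ H) → θ ^ n ≤ H → H ≤ B ^ n →
        Real.exp (-(ε * n)) * (H ^ d)⁻¹ ≤ ‖(P.map (Int.castRingHom ℂ)).eval (t n)‖) ∧
    ∀ d : ℕ, 1 ≤ d → ∀ q : ℕ, q.Prime → (q : ℝ) ^ d ≤ ((2 : ℝ) ^ (((d : ℝ) + 1) / 2)) ^ d *
      ∏ p ∈ (Finset.range q).filter Nat.Prime, (p : ℝ) :=
  ⟨Pool.Agent.Work.MP_f1a024_nt.RW.mtq,
    Pool.Agent.Work.MP_f1a024_nt.RW.Cor_theta Pool.Agent.Work.MP_f1a024_nt.RW.prfZ3⟩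

end Pool.Agent.Work.MP_f1a024_nt.Kept.GenericExponent
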