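import Mathlib
import Pool.Agent.Work.MP_f1a024_nt.Growth

namespace Pool.Agent.Results.MP_f1a024_nt.HankelGrowth

/-- Common denominators of the numbers `t(n) = zeta(2n)/zeta(n)^2` (case `e = 1`) and of their
inverses (case `e = -1`), over the `n` in a short window below `M` that lie in a fixed residue
class of odd integers, grow faster than exponentially. -/
theorem result (q a : ℕ) (hq : 1 ≤ q) (ha : Odd a) (θ ε : ℝ) (hε : 0 < ε) (hεθ : ε < θ)
    (hθ : θ ≤ 1) (e : ℤ) (he : e = 1 ∨ e = -1) :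
    ∃ M₀ : ℕ, ∀ M : ℕ, M₀ ≤ M → ∀ D : ℕ, 0 < D →
      (∀ n : ℕ, n ≡ a [MOD 2 * q] → (M : ℝ) - (M : ℝ) ^ θ ≤ n → n ≤ M → 3 ≤ n →
        ∃ z : ℤ, (D : ℂ) * (riemannZeta (2 * n) / riemannZeta n ^ 2) ^ e = z) →
      (M : ℝ) ^ ((θ - ε) * M) ≤ D := by
  obtain ⟨M₀, _, hM₀⟩ := MPf1a024.growth q a hq ha hε hεθ hθ
  refine ⟨M₀, fun M hM D hD hint => ?_⟩
  refine hM₀ M hM (-e) (by rcases he with h | h <;> simp [h]) D hD ?_
  intro n hn hna h1 h2
  obtain ⟨z, hz⟩ := hint n hna h1 h2 hn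
  refine ⟨z, ?_⟩
  have key : (riemannZeta (2 * n) / riemannZeta n ^ 2) ^ e = (MPf1a024.T (-e) n : ℂ) := by
    rcases he with h | h
    · subst h
      rw [zpow_one]
      exact MPf1a024.ratio_eq hn
    · subst h
      rw [zpow_neg_one, inv_div]
      exact MPf1a024.inv_ratio_eq hn
  rw [key] at hz
  exact_mod_cast hz

end Pool.Agent.Results.MP_f1a024_nt.HankelGrowth
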