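import Pool.Agent.Work.MP_f1a024_nt.RW.FinalK

/-!
# The points `(t(n + s_0), …, t(n + s_k))`, `t(n) = ζ(2n)/ζ(n)^2`, are approximated like generic
points
-/

namespace Pool.Agent.Results.MP_f1a024_nt.JointExponent

/-- `t(n) = ζ(2n)/ζ(n)^2` -/
noncomputable def t (n : ℕ) : ℂ := riemannZeta (2 * n) / riemannZeta n ^ 2

/-- For all large `n`, all `H` with `θ ^ n ≤ H ≤ B ^ n` and all nonzero integer polynomials `P` in
`k + 1` variables, of degree at most `d` in each variable, with coefficients at most `H` in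
absolute value, `|P(t(n + s_0), …, t(n + s_k))| ≥ exp(-εn) * H ^ (1 - (d + 1) ^ (k + 1))`. -/
def HeightBound (k d : ℕ) (s : Fin (k + 1) → ℕ) (θ B ε : ℝ) : Prop :=
  ∃ M : ℕ, ∀ n ≥ M, ∀ (P : MvPolynomial (Fin (k + 1)) ℤ) (H : ℝ), P ≠ 0 →
    (∀ j, P.degreeOf j ≤ d) → (∀ I, |((P.coeff I : ℤ) : ℝ)| ≤ H) → θ ^ n ≤ H → H ≤ B ^ n →
    Real.exp (-(ε * n)) * (H ^ ((d + 1) ^ (k + 1) - 1))⁻¹ ≤
      ‖MvPolynomial.aeval (fun j => t (n + s j)) P‖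

/-- The bound holds with the threshold `θ = 2 ^ ((k + 1)(k + 2) / 2)`, for different `s_0, …, s_k`
and for all `d`, `B` and `ε > 0`. For `k = 0` the threshold `2` is optimal, for every `d ≥ 1`. -/
theorem result :
    (∀ (k d : ℕ) (s : Fin (k + 1) → ℕ) (B ε : ℝ), Function.Injective s → 0 < ε →
      HeightBound k d s (2 ^ ((k + 1) * (k + 2) / 2)) B ε) ∧
    ∀ (d : ℕ) (s : Fin 1 → ℕ) (θ B : ℝ), 1 ≤ d → 0 < θ → θ < 2 → 2 ≤ B →
      ∃ ε : ℝ, 0 < ε ∧ ¬ HeightBound 0 d s θ B ε := by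
  refine ⟨fun k d s B ε hs hε => ?_, fun d s θ B hd h0 h2 hB =>
    Pool.Agent.Work.MP_f1a024_nt.RW.opk d s θ B hd h0 h2 hB⟩
  obtain ⟨M, hM⟩ := Pool.Agent.Work.MP_f1a024_nt.RW.mtk k d s B ε hs hε
  refine ⟨M, fun n hn P H hP hdeg hco hH hB => hM n hn P H hP hdeg hco ?_ hB⟩
  rw [pow_mul]
  exact hH

end Pool.Agent.Results.MP_f1a024_nt.JointExponent
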