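import Pool.Agent.Work.MP_f1a024_nt.NE.Main

set_option autoImplicit false

/-!
# No formula of Euler's type for `ζ(2n)/ζ(n)²`, `n` odd, over imaginary quadratic fields

For odd `n` and an odd primitive quadratic character `χ` modulo `q` the number
`x = ± ζ(n)/L(n,χ)` is the solution of
`ζ(2n)/ζ(n)² · C(2n,n) · (∑ χ(a) B_n(a/q))² · x² = 2 q B_(2n)`.
It is not a root of an integer polynomial of degree `≤ d` and coefficients `≤ B^n`, if `n ≥ M(d,B)`,
for all `q` and `χ`.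
-/

namespace Pool.Agent.Results.MP_f1a024_nt.NoEulerFormula

theorem result (d : ℕ) (B : ℝ) : ∃ M : ℕ, ∀ n ≥ M, Odd n →
    ∀ (q : ℕ) [NeZero q] (χ : DirichletCharacter ℂ q), χ.IsPrimitive → χ.IsQuadratic → χ.Odd →
    ∀ x : ℂ, riemannZeta (2 * n) / riemannZeta n ^ 2 * ((2 * n).choose n : ℂ) *
        (∑ a : ZMod q, χ a * (((Polynomial.bernoulli n).eval ((a.val : ℚ) / q) : ℚ) : ℂ)) ^ 2 *
        x ^ 2 = 2 * q * ((bernoulli (2 * n) : ℚ) : ℂ) →
    ∀ P : Polynomial ℤ, P ≠ 0 → P.natDegree ≤ d → (∀ i, |(P.coeff i : ℝ)| ≤ B ^ n) →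
      Polynomial.aeval x P ≠ 0 :=
  Pool.Agent.Work.MP_f1a024_nt.NE.main d B

end Pool.Agent.Results.MP_f1a024_nt.NoEulerFormula
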