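import Mathlib
import Pool.Agent.Work.MP_f1a024_nt.OddG.Main

set_option autoImplicit false

/-!
For even `n` Euler's formula says that `t(n) = zeta(2n)/zeta(n)^2` satisfies
`t(n) C(2n,n) k^2 = 2 |B_(2n)| (2 (2^n-1))^2` with the integer `k = |2 (2^n-1) B_n|`
(a Genocchi number). We show that nothing of this kind is true for odd `n`, even if large common
denominators and an extra factor `3^n` are allowed.
-/

namespace Pool.Agent.Results.MP_f1a024_nt.NoOddGenocchi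

/-- Let `(M, c)` be `(1, 2.2)`, `(2, 1.49)` or `(3, 1.09)`. For all large `N` and every real
`δ ≥ c^(-N)` there is an odd `n`, `N/6 ≤ n ≤ N`, such that
`t(n) C(2n,n) (δ k)^2 ≠ 2 B_(2n) (2 M^n (2^n-1))^2` for all integers `k`, where
`t(n) = zeta(2n)/zeta(n)^2`. -/
theorem result : ∃ N₀ : ℕ, ∀ N : ℕ, N₀ ≤ N → ∀ (M : ℕ) (c δ : ℝ),
    ((M = 1 ∧ c = 2.2) ∨ (M = 2 ∧ c = 1.49) ∨ (M = 3 ∧ c = 1.09)) → 1 ≤ δ * c ^ N →
      ∃ n : ℕ, Odd n ∧ N ≤ 6 * n ∧ n ≤ N ∧ ∀ k : ℤ,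
        riemannZeta (2 * n) / riemannZeta n ^ 2 * ((2 * n).choose n : ℂ) *
          ((δ : ℂ) * k) ^ 2 ≠
          2 * (bernoulli (2 * n) : ℂ) * (2 * (M : ℂ) ^ n * (2 ^ n - 1)) ^ 2 :=
  Work.MP_f1a024_nt.OddG.main

end Pool.Agent.Results.MP_f1a024_nt.NoOddGenocchi
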