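import Mathlib
import Pool.Agent.Work.MP_f1a024_nt.HP.Asm2

set_option autoImplicit false

/-!
Write `t(n) = ζ(2n)/ζ(n)²`. For odd `n` Euler's formula for `ζ(2n)` shows that
`t(n) (2n)! S² = 2^(2n-1) B_(2n) b²` is equivalent to `b ζ(n)/π^n = ±S`. We show that in every window
`[N-L, N]` with `N log N ≤ κ L²`, `κ = exp(-72m)`, some odd `n` satisfies no such equation with
`S = a_1 ω_1 + .. + a_m ω_m`, `ω_i` arbitrary given reals, `a_i`, `b` integers of bounded size.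
-/

namespace Pool.Agent.Results.MP_f1a024_nt.OddWindowRank

open Real Finset
open scoped Nat

/-- Let `m ≥ 1`, `κ = exp(-72m)`, `N ≥ 2`, `L ≤ N`, `N log N ≤ κ L²`, and let `ω_1, .., ω_m` be
real numbers. There is an odd `n ≥ 3`, `N - L ≤ n ≤ N`, such that
`t(n) (2n)! (a_1 ω_1 + .. + a_m ω_m)² ≠ 2^(2n-1) B_(2n) b²` for all integers `a_i`, `b` with
`|a_i| ≤ exp(κ L²)` and `1 ≤ b ≤ exp(κ L)`. -/
theorem result (m N L : ℕ) (κ : ℝ) (hκ : κ = Real.exp (-(72 * m))) (hm : 1 ≤ m) (hN : 2 ≤ N)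
    (hL : L ≤ N) (hNL : N * Real.log N ≤ κ * (L : ℝ) ^ 2) (ω : Fin m → ℝ) :
    ∃ n : ℕ, Odd n ∧ 3 ≤ n ∧ N ≤ n + L ∧ n ≤ N ∧
      ∀ (a : Fin m → ℤ) (b : ℕ), (∀ i, |(a i : ℝ)| ≤ Real.exp (κ * (L : ℝ) ^ 2)) → 1 ≤ b →
        (b : ℝ) ≤ Real.exp (κ * L) →
        riemannZeta (2 * n) / riemannZeta n ^ 2 * ((2 * n)! : ℂ) *
          (∑ i, (a i : ℂ) * (ω i : ℂ)) ^ 2 ≠ 2 ^ (2 * n - 1) * (bernoulli (2 * n) : ℂ) * b ^ 2 :=
  Work.MP_f1a024_nt.HP.RE2_ok m N L κ hκ hm hN hL hNL ω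

end Pool.Agent.Results.MP_f1a024_nt.OddWindowRank
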