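import Mathlib
import Pool.Agent.Work.MP_f1a024_nt.Expansion2
import Pool.Agent.Work.MP_f1a024_nt.Rarity

namespace Pool.Agent.Results.MP_f1a024_nt.Rarity

open MPf1a024

/-- `t(m) = zeta(2m)/zeta(m)^2` is a rational number with a denominator at most `B^m` -/
def IsSmallRat (B : ℝ) (m : ℕ) : Prop :=
  ∃ a b : ℤ, 0 < b ∧ (b : ℝ) ≤ B ^ m ∧ riemannZeta (2 * m) / riemannZeta m ^ 2 = (a : ℂ) / b

/-- numerators of the seven bases -/
def num : Fin 7 → ℕ := ![4, 8, 4, 16, 4, 8, 32]

/-- denominators of the seven bases -/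
def den : Fin 7 → ℕ := ![3, 9, 5, 27, 7, 15, 81]

/-- coefficients -/
def coef : Fin 7 → ℝ := ![-1, 1, -1, -1, -1, 2, 1]

lemma last_eq : (num 6 : ℝ) / den 6 = 32 / 81 := by
  have h1 : num 6 = 32 := rfl
  have h2 : den 6 = 81 := rfl
  rw [h1, h2]; norm_num

lemma sum_eq (m : ℕ) : ∑ j, coef j * ((num j : ℝ) / den j) ^ m = E m := by
  simp only [Fin.sum_univ_succ, Fin.sum_univ_zero, coef, num, den, E]
  simp
  ring

lemma inj : Function.Injective fun j : Fin 7 => (num j : ℝ) / den j := by
  intro i j h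
  fin_cases i <;> fin_cases j <;> first | rfl | (exfalso; simp [num, den] at h; norm_num at h)

theorem window (B : ℝ) (hB0 : 0 ≤ B) (hB : B ^ 7 < 324) :
    ∃ ε : ℝ, 0 < ε ∧ ∃ N : ℕ, ∀ n : ℕ, N ≤ n → ∀ S : Finset ℕ,
      (∀ m ∈ S, n ≤ m ∧ (m : ℝ) ≤ (1 + ε) * n ∧ IsSmallRat B m) → S.card ≤ 6 := by
  obtain ⟨C, hC0, N₀, hN₀, hY⟩ := Y_exp
  obtain ⟨ε, hε, N, hN⟩ := rarity (d := 7) num den (by decide) (by decide) inj 6 coef
    (by simp [coef]) Y C (8 / 21) N₀ (by norm_num) (by rw [last_eq]; norm_num)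
    (fun m hm => by rw [sum_eq]; exact (hY m hm).2.2) C (max (B / 2) 1) (le_max_right _ _)
    (by
      rcases le_total (B / 2) 1 with h | h
      · rw [max_eq_right h, last_eq]; norm_num
      · rw [max_eq_left h]
        have : (B / 2) ^ 7 * ((num 6 : ℝ) / den 6) = B ^ 7 / 324 := by
          rw [last_eq]; ring
        rw [this]
        linarith)
  refine ⟨ε, hε, max N N₀, fun n hn S hS => ?_⟩
  have key := hN n ((le_max_left _ _).trans hn) S ?_
  · omega
  intro m hm
  obtain ⟨h1, h2, a, b, hb, hbB, hab⟩ := hS m hm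
  have hmN : N₀ ≤ m := ((le_max_right _ _).trans hn).trans h1
  obtain ⟨g1, g2, -⟩ := hY m hmN
  have hT : T (-1) m = (a : ℝ) / b := by
    have := ratio_eq (n := m) (hN₀.trans hmN)
    rw [hab] at this
    exact_mod_cast this.symm
  have hbR : (0 : ℝ) < b := by exact_mod_cast hb
  have hbne : (b : ℝ) ≠ 0 := hbR.ne'
  have hpos : 0 < 1 - T (-1) m := lt_of_lt_of_le (by positivity) g1
  have hc : ((b - a : ℤ) : ℝ) = b * (1 - T (-1) m) := by
    rw [hT]; push_cast; field_simp
  refine ⟨h1, h2, b - a, (a + b) - 2 ^ m * (b - a), ?_, ?_, ?_⟩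
  · have : (0 : ℝ) < ((b - a : ℤ) : ℝ) := by rw [hc]; positivity
    exact_mod_cast this
  · rw [hc]
    calc (b : ℝ) * (1 - T (-1) m) ≤ B ^ m * (C * (1 / 2) ^ m) := by gcongr
      _ = C * (B / 2) ^ m := by rw [div_pow, div_pow, one_pow]; ring
      _ ≤ C * (max (B / 2) 1) ^ m := by
          gcongr
          exact le_max_left _ _
  · unfold Y
    rw [hc]
    have e1 : (b : ℝ) * (1 - T (-1) m) * ((1 + T (-1) m) / (1 - T (-1) m) - 2 ^ m) =
        b * (1 + T (-1) m) - 2 ^ m * (b * (1 - T (-1) m)) := by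
      field_simp
    rw [e1, ← hc, hT]
    push_cast
    field_simp
    ring

open Classical in
theorem counting (B : ℝ) (hB0 : 0 ≤ B) (hB : B ^ 7 < 324) :
    ∃ K : ℝ, ∀ x : ℕ, 2 ≤ x →
      (((Finset.Icc 1 x).filter (IsSmallRat B)).card : ℝ) ≤ K * Real.log x := by
  obtain ⟨ε, hε, N, hN⟩ := window B hB0 hB
  set f : ℕ → ℕ := fun x => ((Finset.Icc 1 x).filter (IsSmallRat B)).card with hf
  have hL : 0 < Real.log (1 + ε) := Real.log_pos (by linarith)
  obtain ⟨N₁, hN₁⟩ : ∃ N₁ : ℕ, (1 + ε) * (N + 2) ≤ N₁ := exists_nat_ge _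
  have hfx : ∀ x, f x ≤ x := by
    intro x
    refine (Finset.card_filter_le _ _).trans ?_
    simp
  have main : ∀ x : ℕ, 1 ≤ x → (f x : ℝ) ≤ N₁ + 6 * (Real.log x / Real.log (1 + ε)) := by
    intro x
    induction x using Nat.strong_induction_on with
    | _ x ih =>
      intro hx
      have hlx : 0 ≤ Real.log x := Real.log_nonneg (by exact_mod_cast hx)
      rcases le_or_gt x N₁ with h | h
      · have : (f x : ℝ) ≤ N₁ := by exact_mod_cast (hfx x).trans h
        have : 0 ≤ 6 * (Real.log x / Real.log (1 + ε)) := by positivity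
        linarith
      · set n : ℕ := ⌈(x : ℝ) / (1 + ε)⌉₊ with hn
        have hnge : (x : ℝ) / (1 + ε) ≤ n := Nat.le_ceil _
        have hnlt : (n : ℝ) < x / (1 + ε) + 1 := Nat.ceil_lt_add_one (by positivity)
        have hxN : (1 + ε) * (N + 2) < x := lt_of_le_of_lt hN₁ (by exact_mod_cast h)
        have hNx : (N + 2 : ℝ) < x / (1 + ε) := by
          rw [lt_div_iff₀ (by positivity)]; linarith
        have hNn : N + 2 ≤ n := by
          have : ((N + 2 : ℕ) : ℝ) < n := by push_cast; linarith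
          exact (by exact_mod_cast this.le)
        have hlt : n - 1 < x := by
          have h3 : (x : ℝ) / (1 + ε) ≤ x := div_le_self (by positivity) (by linarith)
          have : (n : ℝ) < x + 1 := by linarith
          have : n < x + 1 := by exact_mod_cast this
          omega
        have ih' := ih (n - 1) hlt (by omega)
        have hsplit : f x ≤ f (n - 1) + 6 := by
          have hsub : (Finset.Icc 1 x).filter (IsSmallRat B) ⊆
              (Finset.Icc 1 (n - 1)).filter (IsSmallRat B) ∪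
                (Finset.Icc n x).filter (IsSmallRat B) := by
            intro m hm
            simp only [Finset.mem_filter, Finset.mem_Icc, Finset.mem_union] at hm ⊢
            by_cases hmn : m ≤ n - 1
            · left; exact ⟨⟨hm.1.1, hmn⟩, hm.2⟩
            · right; exact ⟨⟨by omega, hm.1.2⟩, hm.2⟩
          have hw : ((Finset.Icc n x).filter (IsSmallRat B)).card ≤ 6 := by
            refine hN n (by omega) _ ?_
            intro m hm
            simp only [Finset.mem_filter, Finset.mem_Icc] at hm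
            refine ⟨hm.1.1, ?_, hm.2⟩
            have : (m : ℝ) ≤ x := by exact_mod_cast hm.1.2
            rw [div_le_iff₀ (by positivity)] at hnge
            linarith
          calc f x ≤ _ := Finset.card_le_card hsub
            _ ≤ _ := Finset.card_union_le _ _
            _ ≤ f (n - 1) + 6 := by simp only [hf]; omega
        have hn1 : ((n - 1 : ℕ) : ℝ) ≤ x / (1 + ε) := by
          rw [Nat.cast_sub (by omega)]; push_cast; linarith
        have hn0 : (0 : ℝ) < ((n - 1 : ℕ) : ℝ) := by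
          have : 0 < n - 1 := by omega
          exact_mod_cast this
        have hlog : Real.log ((n - 1 : ℕ) : ℝ) ≤ Real.log x - Real.log (1 + ε) := by
          rw [← Real.log_div (by positivity) (by positivity)]
          exact Real.log_le_log hn0 hn1
        have h5 : Real.log ((n - 1 : ℕ) : ℝ) / Real.log (1 + ε) ≤
            Real.log x / Real.log (1 + ε) - 1 := by
          rw [div_le_iff₀ hL, sub_mul, div_mul_cancel₀ _ hL.ne']
          linarith
        have h6 : (f x : ℝ) ≤ f (n - 1) + 6 := by exact_mod_cast hsplit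
        linarith
  refine ⟨N₁ / Real.log 2 + 6 / Real.log (1 + ε), fun x hx => ?_⟩
  have h2 : Real.log 2 ≤ Real.log x := Real.log_le_log (by norm_num) (by exact_mod_cast hx)
  have hl2 : 0 < Real.log 2 := Real.log_pos (by norm_num)
  have h3 := main x (by omega)
  have h4 : (N₁ : ℝ) ≤ N₁ / Real.log 2 * Real.log x := by
    rw [div_mul_eq_mul_div, le_div_iff₀ hl2]
    gcongr
  have h5 : (N₁ / Real.log 2 + 6 / Real.log (1 + ε)) * Real.log x =
      N₁ / Real.log 2 * Real.log x + 6 * (Real.log x / Real.log (1 + ε)) := by ring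
  rw [h5]
  linarith

open Classical in
/-- For `B^7 < 324` the integers `m` for which `zeta(2m)/zeta(m)^2` is a rational number with a
denominator at most `B^m` are very rare: at most six in each interval `[n, (1+ε)n]` with `n`
large, and `O(log x)` up to `x`. -/
theorem result (B : ℝ) (hB0 : 0 ≤ B) (hB : B ^ 7 < 324) :
    (∃ ε : ℝ, 0 < ε ∧ ∃ N : ℕ, ∀ n : ℕ, N ≤ n → ∀ S : Finset ℕ,
      (∀ m ∈ S, n ≤ m ∧ (m : ℝ) ≤ (1 + ε) * n ∧ IsSmallRat B m) → S.card ≤ 6) ∧
    ∃ K : ℝ, ∀ x : ℕ, 2 ≤ x →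
      (((Finset.Icc 1 x).filter (IsSmallRat B)).card : ℝ) ≤ K * Real.log x :=
  ⟨window B hB0 hB, counting B hB0 hB⟩

end Pool.Agent.Results.MP_f1a024_nt.Rarity
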