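import Pool.Agent.Work.MP_f1a024_nt.AH.Final

/-!
# Polynomial relations of small height between the values `ζ(2n)/ζ(n)^2`
-/

namespace Pool.Agent.Results.MP_f1a024_nt.SubspaceHeights

/-- `t(n) = ζ(2n)/ζ(n)^2` -/
noncomputable def t (n : ℕ) : ℂ := riemannZeta (2 * n) / riemannZeta n ^ 2

/-- For all `k`, `d`, `B` there are `θ` in `(0,1)` and `M` such that for `m ≥ M` every nonzero
polynomial `P` in `k + 1` variables with integer coefficients of absolute value at most `B ^ m`,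
of degree at most `d` in every variable, satisfies `|P(t(m), …, t(m+k))| ≥ θ ^ m`. -/
theorem result (k d : ℕ) (B : ℝ) : ∃ θ : ℝ, 0 < θ ∧ θ < 1 ∧ ∃ M : ℕ, ∀ m ≥ M,
    ∀ P : MvPolynomial (Fin (k + 1)) ℤ, P ≠ 0 → (∀ j, P.degreeOf j ≤ d) →
    (∀ s, |((P.coeff s : ℤ) : ℝ)| ≤ B ^ m) →
    θ ^ m ≤ ‖MvPolynomial.aeval (fun j : Fin (k + 1) => t (m + j)) P‖ :=
  Pool.Agent.Work.MP_f1a024_nt.AH.d15 k d B

end Pool.Agent.Results.MP_f1a024_nt.SubspaceHeights
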